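import Pool.Agent.H516.PCF.All

/-!
# PCF, part MAP: compatibility with field homomorphisms
-/

set_option autoImplicit false

namespace Pool.Agent.H935.PCF

open Polynomial
open Pool.Agent.H516.PCF

section

variable {k : Type} [Field k] {L : Type} [Field L] (σ : k →+* L)

lemma hom_map (d : ℕ) (R A B : k[X]) :
    hom d (R.map σ) (A.map σ) (B.map σ) = (hom d R A B).map σ := by
  unfold hom
  rw [Polynomial.map_sum]
  refine Finset.sum_congr rfl fun i _ => ?_
  rw [Polynomial.map_mul, Polynomial.map_mul, Polynomial.map_pow, Polynomial.map_pow,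
    Polynomial.map_C, Polynomial.coeff_map]

lemma it_map (d : ℕ) (P Q : k[X]) (n : ℕ) :
    it d (P.map σ) (Q.map σ) n = ((it d P Q n).1.map σ, (it d P Q n).2.map σ) := by
  induction n with
  | zero => simp [it]
  | succ n ih =>
    simp only [it]
    rw [ih]
    simp only [hom_map]

lemma pn_map (d : ℕ) (P Q : k[X]) (n : ℕ) :
    pn d (P.map σ) (Q.map σ) n = (pn d P Q n).map σ := by
  unfold pn
  rw [it_map]

lemma qn_map (d : ℕ) (P Q : k[X]) (n : ℕ) :
    qn d (P.map σ) (Q.map σ) n = (qn d P Q n).map σ := by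
  unfold qn
  rw [it_map]

lemma wr_map (P Q : k[X]) : wr (P.map σ) (Q.map σ) = (wr P Q).map σ := by
  unfold wr
  rw [Polynomial.map_sub, Polynomial.map_mul, Polynomial.map_mul, Polynomial.derivative_map,
    Polynomial.derivative_map]

lemma gp_map (d : ℕ) (P Q : k[X]) (n : ℕ) (t : k) :
    gp d (P.map σ) (Q.map σ) n (σ t) = (gp d P Q n t).map σ := by
  unfold gp
  rw [pn_map, qn_map, Polynomial.map_sub, Polynomial.map_mul, Polynomial.map_C]

lemma cf_map (d : ℕ) (P Q : k[X]) (i : ℕ) (t : k) (R : k[X]) (hR : R.Splits) :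
    cf d (P.map σ) (Q.map σ) i (σ t) (R.map σ) = σ (cf d P Q i t R) := by
  unfold cf
  rw [map_mul, map_pow, Polynomial.leadingCoeff_map, Polynomial.leadingCoeff_map, hR.roots_map σ,
    map_multiset_prod, Multiset.map_map, Multiset.map_map, gp_map]
  congr 2
  refine Multiset.map_congr rfl fun c _ => ?_
  simp only [Function.comp_apply]
  rw [Polynomial.eval_map_apply, map_div₀, map_mul, map_pow, map_pow, map_neg, map_one]

lemma en_map (d : ℕ) (P Q : k[X]) (n : ℕ) (t : k) (hw : (wr P Q).Splits) (hQ : Q.Splits) :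
    en d (P.map σ) (Q.map σ) n (σ t) = σ (en d P Q n t) := by
  unfold en
  rw [map_prod]
  refine Finset.prod_congr rfl fun i _ => ?_
  rw [wr_map, cf_map σ d P Q (i + 1) t (wr P Q) hw, cf_map σ d P Q (i + 1) t Q hQ, map_pow,
    map_div₀, map_pow]

lemma nrm_map {d : ℕ} {P Q : k[X]} (h : Nrm d P Q) : Nrm d (P.map σ) (Q.map σ) where
  two_le := h.two_le
  degP := by rw [Polynomial.natDegree_map, h.degP]
  degQ := by rw [Polynomial.natDegree_map]; exact h.degQ
  Q0 := (Polynomial.map_ne_zero_iff σ.injective).2 h.Q0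
  cop := h.cop.map (Polynomial.mapRingHom σ)

lemma mem_image_of_root {R : k[X]} (hR : R.Splits) (h0 : R ≠ 0) (x : L)
    (hx : (R.map σ).eval x = 0) : ∃ c : k, R.eval c = 0 ∧ σ c = x := by
  have h1 : x ∈ (R.map σ).roots :=
    (Polynomial.mem_roots ((Polynomial.map_ne_zero_iff σ.injective).2 h0)).2 hx
  rw [hR.roots_map σ, Multiset.mem_map] at h1
  obtain ⟨c, hc, hcx⟩ := h1
  exact ⟨c, (Polynomial.mem_roots h0).1 hc, hcx⟩

lemma post_map {P Q : k[X]} (hw : (wr P Q).Splits) (hQ : Q.Splits) (hw0 : wr P Q ≠ 0)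
    (hQ0 : Q ≠ 0) (A : Set k) (h : Post P Q A) : Post (P.map σ) (Q.map σ) (σ '' A) where
  fin := h.fin.image σ
  crit := by
    intro x hx
    rw [wr_map] at hx
    obtain ⟨c, hc, rfl⟩ := mem_image_of_root σ hw hw0 x hx
    exact ⟨c, h.crit c hc, rfl⟩
  pole := by
    intro x hx
    obtain ⟨c, hc, rfl⟩ := mem_image_of_root σ hQ hQ0 x hx
    exact ⟨c, h.pole c hc, rfl⟩
  fwd := by
    rintro _ ⟨a, ha, rfl⟩ hne
    rw [Polynomial.eval_map_apply] at hne
    have hne' : Q.eval a ≠ 0 := fun h0 => hne (by rw [h0, map_zero])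
    refine ⟨_, h.fwd a ha hne', ?_⟩
    rw [Polynomial.eval_map_apply, Polynomial.eval_map_apply, map_div₀]

lemma wr_ne_zero [CharZero k] {d : ℕ} {P Q : k[X]} (h : Nrm d P Q) : wr P Q ≠ 0 := by
  intro h0
  have h1 : derivative P * Q = P * derivative Q := sub_eq_zero.mp h0
  have h2 : P ∣ derivative P := h.cop.dvd_of_dvd_mul_right (h1 ▸ Dvd.intro _ rfl)
  have hP : P.natDegree ≠ 0 := by
    have := h.two_le
    rw [h.degP]
    omega
  by_cases h3 : derivative P = 0
  · exact hP (Polynomial.derivative_eq_zero.1 h3)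
  · have h4 := Polynomial.natDegree_le_of_dvd h2 h3
    have h5 := Polynomial.natDegree_derivative_lt hP
    omega

end

/-- `S_MAP` for a field `k` of any characteristic; the last clause under the condition `wr P Q ≠ 0` -/
theorem map_gen (k : Type) [Field k] (L : Type) [Field L] (σ : k →+* L) (d : ℕ) (P Q : k[X])
    (h : Nrm d P Q) (hw : (wr P Q).Splits) (hQ : Q.Splits) :
    (∀ n t, σ (en d P Q n t) = en d (P.map σ) (Q.map σ) n (σ t)) ∧
    Nrm d (P.map σ) (Q.map σ) ∧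
    (∀ n, pn d (P.map σ) (Q.map σ) n = (pn d P Q n).map σ ∧
      qn d (P.map σ) (Q.map σ) n = (qn d P Q n).map σ) ∧
    (wr P Q ≠ 0 → ∀ A, Post P Q A → Post (P.map σ) (Q.map σ) (σ '' A)) :=
  ⟨fun n t => (en_map σ d P Q n t hw hQ).symm, nrm_map σ h,
    fun n => ⟨pn_map σ d P Q n, qn_map σ d P Q n⟩,
    fun hw0 A hA => post_map σ hw hQ hw0 h.Q0 A hA⟩

/-- `S_MAP` with `[CharZero k]` -/
theorem map (k : Type) [Field k] [CharZero k] (L : Type) [Field L] (σ : k →+* L) (d : ℕ)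
    (P Q : k[X]) (h : Nrm d P Q) (hw : (wr P Q).Splits) (hQ : Q.Splits) :
    (∀ n t, σ (en d P Q n t) = en d (P.map σ) (Q.map σ) n (σ t)) ∧
    Nrm d (P.map σ) (Q.map σ) ∧
    (∀ n, pn d (P.map σ) (Q.map σ) n = (pn d P Q n).map σ ∧
      qn d (P.map σ) (Q.map σ) n = (qn d P Q n).map σ) ∧
    ∀ A, Post P Q A → Post (P.map σ) (Q.map σ) (σ '' A) := by
  obtain ⟨h1, h2, h3, h4⟩ := map_gen k L σ d P Q h hw hQ
  exact ⟨h1, h2, h3, h4 (wr_ne_zero h)⟩

end Pool.Agent.H935.PCF
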